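import Pool.Agent.TCM.All

set_option autoImplicit false

/-!
# MP_f06681_co: total colourings of all loopless multigraphs with `Δ + μ + O(1)` colours

The multigraph has vertex set `Fin n` and edge set `Fin m`; the edge `e` joins `src e` and `tgt e`.
The definitions `TC19.Deg`, `TC19.Mult`, `TC19.EdgeCol` and `TC19.TotCol` are in
`Pool.Agent.Lib_helper19.TC.Defs`.

There is a constant `K₀` such that every loopless multigraph with maximum degree at most `Δ` and
multiplicities at most `μ` has a total colouring with `Δ + μ + K₀` colours, and with `k + 34`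
colours for every `k ≥ max K₀ (Δ + μ)`.  The bound `k + 34` also holds if `k > Δ`, `k ≥ K₀`, there
is a proper edge colouring with `k` colours, and `K₀ μ (log₂ k + 1) ≤ k`.
-/

namespace Pool.Agent.Results.MP_f06681_co.ConstantError

open TC19

theorem result : ∃ K₀ : ℕ, ∀ (n m : ℕ) (src tgt : Fin m → Fin n), (∀ e, src e ≠ tgt e) →
    ∀ Δ μ k : ℕ, (∀ v, Deg src tgt v ≤ Δ) → (∀ u v, u ≠ v → Mult src tgt u v ≤ μ) →
    (Δ + μ ≤ k → TotCol src tgt (k + K₀)) ∧
    (K₀ ≤ k → (Δ + μ ≤ k ∨ (EdgeCol src tgt k ∧ Δ < k ∧ K₀ * (μ * (Nat.log 2 k + 1)) ≤ k)) →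
      TotCol src tgt (k + 34)) :=
  Pool.Agent.TCM.final

end Pool.Agent.Results.MP_f06681_co.ConstantError
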