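import Pool.Agent.Lib_helper19.TC.PolyFinal

set_option autoImplicit false

/-!
# MP_f06681_co: total colourings of all loopless multigraphs, up to a polylogarithmic error

The multigraph has vertex set `Fin n` and edge set `Fin m`; the edge `e` joins `src e` and `tgt e`.
The definitions `TC19.Deg`, `TC19.Mult`, `TC19.EdgeCol` and `TC19.TotCol` are in
`Pool.Agent.Lib_helper19.TC.Defs`.
-/

namespace Pool.Agent.Results.MP_f06681_co.PolylogTotal

open TC19

theorem result (n m : ℕ) (src tgt : Fin m → Fin n) (hst : ∀ e, src e ≠ tgt e) (Δ μ k : ℕ)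
    (hΔ : ∀ v, Deg src tgt v ≤ Δ) (hμ : ∀ u v, u ≠ v → Mult src tgt u v ≤ μ)
    (hk : EdgeCol src tgt k ∨ Δ + μ ≤ k) :
    TotCol src tgt (k + 50000 * (Nat.log 2 k + 1) ^ 2) :=
  final_poly hst hΔ hμ hk

end Pool.Agent.Results.MP_f06681_co.PolylogTotal
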