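import Pool.Agent.Lib_helper19.TC.Final

set_option autoImplicit false

/-!
# MP_f06681_co: total colourings of multigraphs whose hard core has small components

The multigraph has vertex set `Fin n` and edge set `Fin m`; the edge `e` joins `src e` and `tgt e`.
The definitions `TC19.Deg`, `TC19.Mult`, `TC19.Under`, `TC19.Nbrs`, `TC19.EdgeCol` and `TC19.TotCol`
are in `Pool.Agent.Lib_helper19.TC.Defs`.
-/

namespace Pool.Agent.Results.MP_f06681_co.SmallCore

open TC19

theorem result {n m : ℕ} (src tgt : Fin m → Fin n) (hloop : ∀ e, src e ≠ tgt e) (Δ μ k : ℕ)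
    (hΔ : ∀ v, Deg src tgt v ≤ Δ) (hμ : ∀ u v, u ≠ v → Mult src tgt u v ≤ μ)
    (hk : EdgeCol src tgt k ∨ Δ + μ ≤ k) (hk2 : Δ + 2 ≤ k)
    (hcore : ∀ W : Finset (Fin n), ((Under src tgt).induce (W : Set (Fin n))).Connected →
      (∀ v ∈ W, k ≤ Deg src tgt v + Nbrs src tgt W v) → W.card ≤ k) :
    TotCol src tgt k :=
  final_small hloop hΔ hμ hk hk2 hcore

end Pool.Agent.Results.MP_f06681_co.SmallCore
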