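import Pool.Agent.Lib_helper19.TC.Final3

set_option autoImplicit false

/-!
# MP_f06681_co: total colourings of multigraphs without vertices with nearly `k` neighbours

The multigraph has vertex set `Fin n` and edge set `Fin m`; the edge `e` joins `src e` and `tgt e`.
The definitions `TC19.Deg`, `TC19.Mult`, `TC19.Under`, `TC19.Nbrs`, `TC19.EdgeCol` and `TC19.TotCol`
are in `Pool.Agent.Lib_helper19.TC.Defs`.

Taking `D = Δ` and `L = k - Δ` one gets a total colouring with `k` colours whenever `k ≥ Δ + C`,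
`C * Δ ^ 5 ≤ (k - Δ) ^ 6` and (`k ≥ Δ + μ` or there is a proper edge colouring with `k` colours);
see `TC19.cor_thick3`.  So `Δ + μ` colours suffice for all loopless multigraphs with
`μ ≥ C' * Δ ^ (5 / 6)`.
-/

namespace Pool.Agent.Results.MP_f06681_co.ThickMultigraphs

open TC19

theorem result : ∃ C : ℕ, ∀ (n m : ℕ) (src tgt : Fin m → Fin n),
    (∀ e, src e ≠ tgt e) → ∀ Δ μ k D L : ℕ, (∀ v, Deg src tgt v ≤ Δ) →
    (∀ u v, u ≠ v → Mult src tgt u v ≤ μ) → (EdgeCol src tgt k ∨ Δ + μ ≤ k) →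
    C ≤ L → C * D ^ 5 ≤ L * (k - D) ^ 5 →
    (∀ W : Finset (Fin n), (∀ v ∈ W, k ≤ Deg src tgt v + Nbrs src tgt W v) →
      ∀ v ∈ W, Deg src tgt v + L ≤ k ∧ Nbrs src tgt W v ≤ D) →
    TotCol src tgt k :=
  final_thick3

end Pool.Agent.Results.MP_f06681_co.ThickMultigraphs
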